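import Mathlib

open Filter Topology

namespace Pool.Agent.Results.MP_441f99_an.NotC0ImpliesSigma

section Defs

/-- A hereditary cover of `ℕ`. -/
structure IsHereditaryCover (𝓕 : Set (Finset ℕ)) : Prop where
  hereditary : ∀ F ∈ 𝓕, ∀ G ⊆ F, G ∈ 𝓕
  covers : ∀ n : ℕ, ({n} : Finset ℕ) ∈ 𝓕

/-- The norm of the combinatorial space. -/
noncomputable def nrm (𝓕 : Set (Finset ℕ)) (x : ℕ →₀ ℝ) : ℝ := ⨆ F : 𝓕, ∑ i ∈ (F : Finset ℕ), |x i|

/-- The closure of `𝓕`: the sets all of whose finite subsets lie in `𝓕`. -/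
def cl (𝓕 : Set (Finset ℕ)) : Set (Set ℕ) := {A | ∀ F : Finset ℕ, (F : Set ℕ) ⊆ A → F ∈ 𝓕}

open Classical in
/-- The coordinate projection. -/
noncomputable def P (A : Set ℕ) (x : ℕ →₀ ℝ) : ℕ →₀ ℝ := x.filter (fun i => i ∈ A)

/-- The `ℓ₁` norm. -/
noncomputable def l1 (x : ℕ →₀ ℝ) : ℝ := ∑ i ∈ x.support, |x i|

/-- `𝓕`-supported normalized block basic sequences. -/
structure IsBlock (𝓕 : Set (Finset ℕ)) (x : ℕ → (ℕ →₀ ℝ)) : Prop where
  succ : ∀ n, ∀ i ∈ (x n).support, ∀ j ∈ (x (n + 1)).support, i < j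
  norm : ∀ n, nrm 𝓕 (x n) = 1
  supp : ∀ n, (x n).support ∈ 𝓕

/-- Property `(¬ c₀)`: `sup_A ∑_n ‖P_A x_n‖ = ∞` for all block sequences. -/
def NotC0 (𝓕 : Set (Finset ℕ)) : Prop :=
  ∀ x, IsBlock 𝓕 x → ∀ C : ℝ, ∃ A ∈ cl 𝓕, ∃ N : ℕ, C < ∑ n ∈ Finset.range N, nrm 𝓕 (P A (x n))

/-- Property `(Σ)`: a single `A` with `∑_n ‖P_A x_n‖₁ = ∞`. -/
def SigmaProp (𝓕 : Set (Finset ℕ)) : Prop :=
  ∀ x, IsBlock 𝓕 x → ∃ A ∈ cl 𝓕, ¬ Summable (fun n => l1 (P A (x n)))

end Defs

variable {𝓕 : Set (Finset ℕ)}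

theorem sum_le_l1 (x : ℕ →₀ ℝ) (F : Finset ℕ) : ∑ i ∈ F, |x i| ≤ l1 x := by
  classical
  unfold l1
  calc ∑ i ∈ F, |x i| = ∑ i ∈ F.filter (fun i => x i ≠ 0), |x i| := by
        rw [Finset.sum_filter]
        refine Finset.sum_congr rfl (fun i _ => ?_)
        split_ifs with h
        · rfl
        · rw [not_not] at h; rw [h, abs_zero]
    _ ≤ ∑ i ∈ x.support, |x i| := by
        apply Finset.sum_le_sum_of_subset_of_nonneg
        · intro i hi
          exact Finsupp.mem_support_iff.mpr (Finset.mem_filter.mp hi).2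
        · intro _ _ _; exact abs_nonneg _

theorem nrm_bdd (x : ℕ →₀ ℝ) : BddAbove (Set.range (fun F : 𝓕 => ∑ i ∈ (F : Finset ℕ), |x i|)) :=
  ⟨l1 x, by rintro _ ⟨F, rfl⟩; exact sum_le_l1 x F⟩

theorem le_nrm (x : ℕ →₀ ℝ) {F : Finset ℕ} (hF : F ∈ 𝓕) : ∑ i ∈ F, |x i| ≤ nrm 𝓕 x :=
  le_ciSup (nrm_bdd x) (⟨F, hF⟩ : 𝓕)

theorem nrm_le_l1 (h𝓕 : IsHereditaryCover 𝓕) (x : ℕ →₀ ℝ) : nrm 𝓕 x ≤ l1 x := by
  have : Nonempty 𝓕 := ⟨⟨{0}, h𝓕.covers 0⟩⟩
  exact ciSup_le (fun F => sum_le_l1 x F)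

theorem IsBlock.l1_eq (h𝓕 : IsHereditaryCover 𝓕) {x : ℕ → (ℕ →₀ ℝ)} (hx : IsBlock 𝓕 x) (n : ℕ) :
    l1 (x n) = 1 := by
  apply le_antisymm
  · rw [← hx.norm n]; exact le_nrm (x n) (hx.supp n)
  · rw [← hx.norm n]; exact nrm_le_l1 h𝓕 _

theorem IsBlock.nonempty (h𝓕 : IsHereditaryCover 𝓕) {x : ℕ → (ℕ →₀ ℝ)} (hx : IsBlock 𝓕 x) (n : ℕ) :
    (x n).support.Nonempty := by
  by_contra h
  rw [Finset.not_nonempty_iff_eq_empty] at h
  have := hx.l1_eq h𝓕 n
  unfold l1 at this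
  rw [h, Finset.sum_empty] at this
  exact zero_ne_one this

theorem IsBlock.le (h𝓕 : IsHereditaryCover 𝓕) {x : ℕ → (ℕ →₀ ℝ)} (hx : IsBlock 𝓕 x) (n : ℕ) :
    ∀ i ∈ (x n).support, n ≤ i := by
  induction n with
  | zero => intro i _; exact Nat.zero_le _
  | succ n ih =>
    intro j hj
    obtain ⟨i, hi⟩ := hx.nonempty h𝓕 n
    have h1 := ih i hi
    have h2 := hx.succ n i hi j hj
    omega

/-- Functions carrying members of `𝓕` of mass at least one arbitrarily far out. -/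
def Heavy (𝓕 : Set (Finset ℕ)) (W : ℕ → ℝ) : Prop :=
  ∀ N : ℕ, ∃ F ∈ 𝓕, (∀ i ∈ F, N ≤ i) ∧ 1 ≤ ∑ i ∈ F, W i

/-- Consequence of `(¬ c₀)` for heavy functions. -/
theorem NotC0.heavy (h𝓕 : IsHereditaryCover 𝓕) (h : NotC0 𝓕) {W : ℕ → ℝ} (hW0 : ∀ i, 0 ≤ W i)
    (hW : Heavy 𝓕 W) (C : ℝ) : ∃ F ∈ 𝓕, C < ∑ i ∈ F, W i := by
  classical
  choose G hG𝓕 hGN hG1 using hW
  -- consecutive sets
  let N : ℕ → ℕ := fun n => Nat.rec 0 (fun _ m => (G m).sup id + m + 1) n
  have hNs : ∀ n, N (n + 1) = (G (N n)).sup id + N n + 1 := fun _ => rfl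
  have hlt : ∀ n, ∀ i ∈ G (N n), i < N (n + 1) := by
    intro n i hi
    have : i ≤ (G (N n)).sup id := Finset.le_sup (f := id) hi
    rw [hNs]; omega
  let m : ℕ → ℝ := fun n => ∑ i ∈ G (N n), W i
  have hm : ∀ n, 1 ≤ m n := fun n => hG1 _
  let cf : ℕ → ℕ → ℝ := fun n i => if i ∈ G (N n) then W i / m n else 0
  let x : ℕ → (ℕ →₀ ℝ) := fun n => Finsupp.onFinset (G (N n)) (cf n) (fun i hi => by
    by_contra h
    exact hi (if_neg h))
  have hxv : ∀ n i, x n i = if i ∈ G (N n) then W i / m n else 0 := fun _ _ => rfl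
  have hsub : ∀ n, (x n).support ⊆ G (N n) := fun n => Finsupp.support_onFinset_subset
  have hsuppmem : ∀ n, (x n).support ∈ 𝓕 := fun n => h𝓕.hereditary _ (hG𝓕 _) _ (hsub n)
  have habs : ∀ n i, |x n i| = if i ∈ G (N n) then W i / m n else 0 := by
    intro n i
    rw [hxv]
    split_ifs
    · exact abs_of_nonneg (div_nonneg (hW0 i) (by linarith [hm n]))
    · exact abs_zero
  have hl1 : ∀ n, l1 (x n) = 1 := by
    intro n
    have h1 : l1 (x n) = ∑ i ∈ G (N n), |x n i| := by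
      unfold l1
      apply Finset.sum_subset (hsub n)
      intro i _ hi
      rw [Finsupp.notMem_support_iff.mp hi, abs_zero]
    rw [h1]
    have h2 : ∑ i ∈ G (N n), |x n i| = ∑ i ∈ G (N n), W i / m n :=
      Finset.sum_congr rfl (fun i hi => by rw [habs, if_pos hi])
    rw [h2, ← Finset.sum_div]
    exact div_self (by linarith [hm n])
  have hx : IsBlock 𝓕 x := by
    refine ⟨?_, ?_, hsuppmem⟩
    · intro n i hi j hj
      have h1 := hlt n i (hsub n hi)
      have h2 := hGN (N (n + 1)) j (hsub (n + 1) hj)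
      omega
    · intro n
      apply le_antisymm
      · rw [← hl1 n]; exact nrm_le_l1 h𝓕 _
      · rw [← hl1 n]; exact le_nrm (x n) (hsuppmem n)
  obtain ⟨A, hA, K, hK⟩ := h x hx C
  -- the finite set
  let F : Finset ℕ := ((Finset.range K).biUnion (fun n => G (N n))).filter (fun i => i ∈ A)
  refine ⟨F, hA F (fun i hi => (Finset.mem_filter.mp hi).2), hK.trans_le ?_⟩
  have hNmono : Monotone N := monotone_nat_of_le_succ (fun n => by rw [hNs]; omega)
  have hdisj : Set.PairwiseDisjoint (↑(Finset.range K)) (fun n => (G (N n)).filter (fun i => i ∈ A)) := by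
    intro a _ b _ hab
    rw [Function.onFun, Finset.disjoint_left]
    intro i hi hj
    rcases Nat.lt_or_gt_of_ne hab with h1 | h1
    · have h2 := hlt a i (Finset.mem_filter.mp hi).1
      have h3 := hGN _ i (Finset.mem_filter.mp hj).1
      have h4 := hNmono h1
      simp only [Nat.succ_eq_add_one] at h4
      omega
    · have h2 := hlt b i (Finset.mem_filter.mp hj).1
      have h3 := hGN _ i (Finset.mem_filter.mp hi).1
      have h4 := hNmono h1
      simp only [Nat.succ_eq_add_one] at h4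
      omega
  have hF : F = (Finset.range K).biUnion (fun n => (G (N n)).filter (fun i => i ∈ A)) := by
    show ((Finset.range K).biUnion (fun n => G (N n))).filter (fun i => i ∈ A) = _
    rw [Finset.filter_biUnion]
  rw [hF, Finset.sum_biUnion hdisj]
  refine Finset.sum_le_sum (fun n _ => ?_)
  refine (nrm_le_l1 h𝓕 _).trans ?_
  have h1 : l1 (P A (x n)) ≤ ∑ i ∈ G (N n), |P A (x n) i| := by
    unfold l1
    apply Finset.sum_le_sum_of_subset_of_nonneg
    · intro i hi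
      rw [Finsupp.mem_support_iff] at hi
      apply hsub n
      rw [Finsupp.mem_support_iff]
      intro h0
      apply hi
      show (Finsupp.filter (fun i => i ∈ A) (x n)) i = 0
      rw [Finsupp.filter_apply]
      split_ifs
      · exact h0
      · rfl
    · intro _ _ _; exact abs_nonneg _
  refine h1.trans ?_
  rw [Finset.sum_filter]
  refine Finset.sum_le_sum (fun i hi => ?_)
  have h2 : P A (x n) i = if i ∈ A then x n i else 0 := by
    show (Finsupp.filter (fun i => i ∈ A) (x n)) i = _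
    rw [Finsupp.filter_apply]
  rw [h2]
  split_ifs
  · rw [habs, if_pos hi]
    exact div_le_self (hW0 i) (hm n)
  · rw [abs_zero]

/-! ### The rank argument -/

/-- `F` can be appended to `A`. -/
def App (𝓕 : Set (Finset ℕ)) (A F : Finset ℕ) : Prop := (∀ i ∈ A, ∀ j ∈ F, i < j) ∧ A ∪ F ∈ 𝓕

/-- `A'` arises from `A` by appending a set of mass at least one. -/
def Rel (𝓕 : Set (Finset ℕ)) (X : ℕ → ℝ) (A' A : Finset ℕ) : Prop :=
  ∃ F, App 𝓕 A F ∧ A' = A ∪ F ∧ 1 ≤ ∑ i ∈ F, X i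

/-- The claim proved by induction. -/
def Claim (𝓕 : Set (Finset ℕ)) (X : ℕ → ℝ) (A : Finset ℕ) : Prop :=
  ∀ Z : ℕ → ℝ, (∀ i, 0 ≤ Z i) → (∀ i, Z i ≤ X i) → Heavy 𝓕 Z →
    ∃ W : ℕ → ℝ, (∀ i, 0 ≤ W i) ∧ (∀ i, W i ≤ Z i) ∧ Heavy 𝓕 W ∧
      ∀ F, App 𝓕 A F → ∑ i ∈ F, W i ≤ 4

theorem finite_claim {X : ℕ → ℝ} (S : Finset (Finset ℕ)) (hS : ∀ A ∈ S, Claim 𝓕 X A) (Z : ℕ → ℝ)
    (hZ0 : ∀ i, 0 ≤ Z i) (hZX : ∀ i, Z i ≤ X i) (hZ : Heavy 𝓕 Z) :
    ∃ W : ℕ → ℝ, (∀ i, 0 ≤ W i) ∧ (∀ i, W i ≤ Z i) ∧ Heavy 𝓕 W ∧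
      ∀ A ∈ S, ∀ F, App 𝓕 A F → ∑ i ∈ F, W i ≤ 4 := by
  classical
  induction S using Finset.induction_on with
  | empty => exact ⟨Z, hZ0, fun _ => le_rfl, hZ, by simp⟩
  | insert A S _ ih =>
    obtain ⟨W, h1, h2, h3, h4⟩ := ih (fun B hB => hS B (Finset.mem_insert_of_mem hB))
    obtain ⟨W', h5, h6, h7, h8⟩ := hS A (Finset.mem_insert_self _ _) W h1
      (fun i => (h2 i).trans (hZX i)) h3
    refine ⟨W', h5, fun i => (h6 i).trans (h2 i), h7, fun B hB F hF => ?_⟩
    rcases Finset.mem_insert.mp hB with rfl | hB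
    · exact h8 F hF
    · exact (Finset.sum_le_sum (fun i _ => h6 i)).trans (h4 B hB F hF)

theorem step (h𝓕 : IsHereditaryCover 𝓕) (h : NotC0 𝓕) {X : ℕ → ℝ} {A : Finset ℕ}
    (hA : ∀ A', Rel 𝓕 X A' A → Claim 𝓕 X A') (Z : ℕ → ℝ) (hZ0 : ∀ i, 0 ≤ Z i)
    (hZX : ∀ i, Z i ≤ X i) (hZ : Heavy 𝓕 Z) (n N : ℕ) :
    ∃ (Z' : ℕ → ℝ) (F : Finset ℕ), (∀ i, 0 ≤ Z' i) ∧ (∀ i, Z' i ≤ Z i) ∧ Heavy 𝓕 Z' ∧ F ∈ 𝓕 ∧
      (∀ i ∈ F, N ≤ i) ∧ 2 ^ (n + 3) ≤ ∑ i ∈ F, Z' i ∧
      ∀ A', A' ⊆ Finset.range N → Rel 𝓕 X A' A → ∀ G, App 𝓕 A' G → ∑ i ∈ G, Z' i ≤ 4 := by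
  classical
  obtain ⟨Z', h1, h2, h3, h4⟩ := finite_claim ((Finset.range N).powerset.filter
    (fun A' => Rel 𝓕 X A' A)) (fun A' hA' => hA A' (Finset.mem_filter.mp hA').2) Z hZ0 hZX hZ
  have h5 : Heavy 𝓕 (fun i => if N ≤ i then Z' i else 0) := by
    intro M
    obtain ⟨F, hF, hFM, hF1⟩ := h3 (max M N)
    refine ⟨F, hF, fun i hi => (le_max_left _ _).trans (hFM i hi), ?_⟩
    rw [Finset.sum_congr rfl (fun i hi => if_pos ((le_max_right _ _).trans (hFM i hi)))]
    exact hF1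
  obtain ⟨F, hF, hF1⟩ := NotC0.heavy h𝓕 h (W := fun i => if N ≤ i then Z' i else 0)
    (fun i => by split_ifs; exacts [h1 i, le_rfl]) h5 (2 ^ (n + 3))
  refine ⟨Z', F.filter (fun i => N ≤ i), h1, h2, h3, h𝓕.hereditary _ hF _ (Finset.filter_subset _ _),
    fun i hi => (Finset.mem_filter.mp hi).2, ?_, ?_⟩
  · rw [Finset.sum_filter]; exact hF1.le
  · intro A' hA' hrel G hG
    exact h4 A' (Finset.mem_filter.mpr ⟨Finset.mem_powerset.mpr hA', hrel⟩) G hG

theorem geom_le (M : ℕ) : ∑ m ∈ Finset.range M, ((1 : ℝ) / 2) ^ (m + 1) ≤ 1 := by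
  have h : ∑ m ∈ Finset.range M, ((1 : ℝ) / 2) ^ (m + 1) = 1 - (1 / 2) ^ M := by
    induction M with
    | zero => simp
    | succ M ih => rw [Finset.sum_range_succ, ih]; ring
  rw [h]
  have : (0 : ℝ) ≤ (1 / 2) ^ M := by positivity
  linarith

theorem claim_step (h𝓕 : IsHereditaryCover 𝓕) (h : NotC0 𝓕) {X : ℕ → ℝ} {A : Finset ℕ}
    (hA : ∀ A', Rel 𝓕 X A' A → Claim 𝓕 X A') : Claim 𝓕 X A := by
  classical
  intro Z hZ0 hZX hZ
  let State : Type := {p : (ℕ → ℝ) × ℕ // (∀ i, 0 ≤ p.1 i) ∧ (∀ i, p.1 i ≤ Z i) ∧ Heavy 𝓕 p.1}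
  have hstep : ∀ (n : ℕ) (p : State), ∃ (Z' : ℕ → ℝ) (F : Finset ℕ), (∀ i, 0 ≤ Z' i) ∧
      (∀ i, Z' i ≤ p.1.1 i) ∧ Heavy 𝓕 Z' ∧ F ∈ 𝓕 ∧
      (∀ i ∈ F, p.1.2 ≤ i) ∧ 2 ^ (n + 3) ≤ ∑ i ∈ F, Z' i ∧
      ∀ A', A' ⊆ Finset.range p.1.2 → Rel 𝓕 X A' A → ∀ G, App 𝓕 A' G → ∑ i ∈ G, Z' i ≤ 4 :=
    fun n p => step h𝓕 h hA p.1.1 p.2.1 (fun i => (p.2.2.1 i).trans (hZX i)) p.2.2.2 n p.1.2
  choose Zc Fc hc1 hc2 hc3 hc4 hc5 hc6 hc7 using hstep
  let st : ℕ → State := fun n => Nat.rec ⟨(Z, 0), hZ0, fun _ => le_rfl, hZ⟩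
    (fun n p => ⟨(Zc n p, (Fc n p).sup id + p.1.2 + 1), hc1 n p,
      fun i => (hc2 n p i).trans (p.2.2.1 i), hc3 n p⟩) n
  let N : ℕ → ℕ := fun n => (st n).1.2
  let F : ℕ → Finset ℕ := fun n => Fc n (st n)
  let Z' : ℕ → ℕ → ℝ := fun n => Zc n (st n)
  have hN0 : N 0 = 0 := rfl
  have hNs : ∀ n, N (n + 1) = (F n).sup id + N n + 1 := fun _ => rfl
  have hZ'0 : ∀ n i, 0 ≤ Z' n i := fun n i => hc1 n (st n) i
  have hZ'Z : ∀ n i, Z' n i ≤ Z i := fun n i => (hc2 n (st n) i).trans ((st n).2.2.1 i)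
  have hF𝓕 : ∀ n, F n ∈ 𝓕 := fun n => hc4 n (st n)
  have hFN : ∀ n, ∀ i ∈ F n, N n ≤ i := fun n => hc5 n (st n)
  have hFlt : ∀ n, ∀ i ∈ F n, i < N (n + 1) := by
    intro n i hi
    have : i ≤ (F n).sup id := Finset.le_sup (f := id) hi
    rw [hNs]; omega
  have hmass : ∀ n, 2 ^ (n + 3) ≤ ∑ i ∈ F n, Z' n i := fun n => hc6 n (st n)
  have hsmall : ∀ n, ∀ A', A' ⊆ Finset.range (N n) → Rel 𝓕 X A' A → ∀ G, App 𝓕 A' G →
      ∑ i ∈ G, Z' n i ≤ 4 := fun n => hc7 n (st n)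
  have hNmono : Monotone N := monotone_nat_of_le_succ (fun n => by rw [hNs]; omega)
  have hNn : ∀ n, n ≤ N n := by
    intro n
    induction n with
    | zero => exact Nat.zero_le _
    | succ n ih => rw [hNs]; omega
  -- the index of the block
  have hex : ∀ i, ∃ n, i < N (n + 1) := fun i => ⟨i, by have := hNn (i + 1); omega⟩
  let idx : ℕ → ℕ := fun i => Nat.find (hex i)
  have hidx1 : ∀ i, i < N (idx i + 1) := fun i => Nat.find_spec (hex i)
  have hidx2 : ∀ i, N (idx i) ≤ i := by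
    intro i
    rcases Nat.eq_zero_or_pos (idx i) with h0 | h0
    · rw [h0, hN0]; exact Nat.zero_le _
    · have := Nat.find_min (hex i) (m := idx i - 1) (by show idx i - 1 < idx i; omega)
      rw [not_lt, Nat.sub_add_cancel h0] at this
      exact this
  have hidx3 : ∀ n i, N n ≤ i → i < N (n + 1) → idx i = n := by
    intro n i h1 h2
    apply le_antisymm
    · exact Nat.find_le h2
    · by_contra hlt
      have h3 : N (idx i + 1) ≤ N n := hNmono (show idx i + 1 ≤ n by omega)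
      have h4 := hidx1 i
      omega
  let s : ℕ → ℝ := fun n => ∑ i ∈ F n, Z' n i
  have hs : ∀ n, 1 ≤ s n := fun n => (one_le_pow₀ (by norm_num)).trans (hmass n)
  have hs0 : ∀ n, 0 < s n := fun n => lt_of_lt_of_le one_pos (hs n)
  let w : ℕ → ℕ → ℝ := fun n i => if i ∈ F n then Z' n i / s n else 0
  have hw0 : ∀ n i, 0 ≤ w n i := by
    intro n i
    show 0 ≤ if i ∈ F n then Z' n i / s n else 0
    split_ifs
    · exact div_nonneg (hZ'0 n i) (hs0 n).le
    · exact le_rfl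
  have hwZ : ∀ n i, w n i ≤ Z' n i / s n := by
    intro n i
    show (if i ∈ F n then Z' n i / s n else 0) ≤ _
    split_ifs
    · exact le_rfl
    · exact div_nonneg (hZ'0 n i) (hs0 n).le
  have hwF : ∀ n, ∑ i ∈ F n, w n i = 1 := by
    intro n
    have h1 : ∑ i ∈ F n, w n i = ∑ i ∈ F n, Z' n i / s n :=
      Finset.sum_congr rfl (fun i hi => if_pos hi)
    rw [h1, ← Finset.sum_div]
    exact div_self (hs0 n).ne'
  have hwle : ∀ n (G : Finset ℕ), ∑ i ∈ G, w n i ≤ 1 := by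
    intro n G
    rw [← hwF n]
    calc ∑ i ∈ G, w n i = ∑ i ∈ G.filter (fun i => i ∈ F n), w n i := by
          rw [Finset.sum_filter]
          refine Finset.sum_congr rfl (fun i _ => ?_)
          split_ifs with hi
          · rfl
          · exact if_neg hi
      _ ≤ ∑ i ∈ F n, w n i := by
          apply Finset.sum_le_sum_of_subset_of_nonneg
          · intro i hi; exact (Finset.mem_filter.mp hi).2
          · intro i _ _; exact hw0 n i
  let W : ℕ → ℝ := fun i => w (idx i) i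
  have hW0 : ∀ i, 0 ≤ W i := fun i => hw0 _ i
  have hW1 : ∀ i, W i ≤ 1 := by
    intro i
    have := hwle (idx i) {i}
    rwa [Finset.sum_singleton] at this
  have hWZ : ∀ i, W i ≤ Z i := fun i =>
    (hwZ _ i).trans ((div_le_self (hZ'0 _ i) (hs _)).trans (hZ'Z _ i))
  refine ⟨W, hW0, hWZ, ?_, ?_⟩
  · intro M
    refine ⟨F M, hF𝓕 M, fun i hi => (hNn M).trans (hFN M i hi), ?_⟩
    have h1 : ∑ i ∈ F M, W i = ∑ i ∈ F M, w M i := by
      refine Finset.sum_congr rfl (fun i hi => ?_)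
      show w (idx i) i = w M i
      rw [hidx3 M i (hFN M i hi) (hFlt M i hi)]
    rw [h1, hwF]
  · intro G hG
    rcases lt_or_ge (∑ i ∈ G, W i) 1 with hlt | hge
    · linarith
    have hexj : ∃ j, 1 ≤ ∑ i ∈ G.filter (fun i => i ≤ j), W i := by
      refine ⟨G.sup id, ?_⟩
      have : G.filter (fun i => i ≤ G.sup id) = G := by
        apply Finset.filter_true_of_mem
        intro i hi
        exact Finset.le_sup (f := id) hi
      rw [this]; exact hge
    obtain ⟨j, hj, hjmin⟩ : ∃ j, 1 ≤ ∑ i ∈ G.filter (fun i => i ≤ j), W i ∧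
        ∀ k < j, ∑ i ∈ G.filter (fun i => i ≤ k), W i < 1 :=
      ⟨Nat.find hexj, Nat.find_spec hexj, fun k hk => not_le.mp (Nat.find_min hexj hk)⟩
    have hjlt : ∑ i ∈ G.filter (fun i => i < j), W i ≤ 1 := by
      rcases Nat.eq_zero_or_pos j with h0 | h0
      · subst h0
        have : G.filter (fun i => i < 0) = ∅ := by
          apply Finset.filter_false_of_mem
          intro i _; omega
        rw [this, Finset.sum_empty]; exact zero_le_one
      · have h1 := hjmin (j - 1) (by omega)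
        have h2 : G.filter (fun i => i ≤ j - 1) = G.filter (fun i => i < j) := by
          apply Finset.filter_congr
          intro i _; omega
        rw [h2] at h1; exact h1.le
    have hle2 : ∑ i ∈ G.filter (fun i => i ≤ j), W i ≤ 2 := by
      have h1 : G.filter (fun i => i ≤ j) ⊆ G.filter (fun i => i < j) ∪ {j} := by
        intro i hi
        rw [Finset.mem_filter] at hi
        rw [Finset.mem_union, Finset.mem_filter, Finset.mem_singleton]
        rcases Nat.lt_or_eq_of_le hi.2 with h2 | h2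
        · exact Or.inl ⟨hi.1, h2⟩
        · exact Or.inr h2
      calc ∑ i ∈ G.filter (fun i => i ≤ j), W i
          ≤ ∑ i ∈ G.filter (fun i => i < j) ∪ {j}, W i :=
            Finset.sum_le_sum_of_subset_of_nonneg h1 (fun i _ _ => hW0 i)
        _ ≤ ∑ i ∈ G.filter (fun i => i < j), W i + ∑ i ∈ {j}, W i := by
            rw [← Finset.sum_union_inter]
            have : 0 ≤ ∑ i ∈ G.filter (fun i => i < j) ∩ {j}, W i :=
              Finset.sum_nonneg (fun i _ => hW0 i)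
            linarith
        _ ≤ 2 := by rw [Finset.sum_singleton]; linarith [hW1 j]
    set n := idx j with hn
    have hjn1 : j < N (n + 1) := hidx1 j
    have hjn2 : N n ≤ j := hidx2 j
    set A' := A ∪ G.filter (fun i => i ≤ j) with hA'
    have hne : (G.filter (fun i => i ≤ j)).Nonempty := by
      by_contra hemp
      rw [Finset.not_nonempty_iff_eq_empty] at hemp
      rw [hemp, Finset.sum_empty] at hj
      linarith
    have hrel : Rel 𝓕 X A' A := by
      refine ⟨G.filter (fun i => i ≤ j), ⟨fun i hi k hk => hG.1 i hi k (Finset.mem_filter.mp hk).1,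
        h𝓕.hereditary _ hG.2 _ (Finset.union_subset_union_right (Finset.filter_subset _ _))⟩, rfl,
        hj.trans (Finset.sum_le_sum (fun i _ => (hWZ i).trans (hZX i)))⟩
    have hA'sub : A' ⊆ Finset.range (N (n + 1)) := by
      intro i hi
      rw [Finset.mem_range]
      rcases Finset.mem_union.mp hi with hi | hi
      · obtain ⟨k, hk⟩ := hne
        have h1 := hG.1 i hi k (Finset.mem_filter.mp hk).1
        have h2 := (Finset.mem_filter.mp hk).2
        omega
      · have h2 := (Finset.mem_filter.mp hi).2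
        omega
    set R2 := G.filter (fun i => N (n + 1) ≤ i) with hR2
    have happ : App 𝓕 A' R2 := by
      refine ⟨fun i hi k hk => ?_, ?_⟩
      · have h1 := Finset.mem_range.mp (hA'sub hi)
        have h2 := (Finset.mem_filter.mp hk).2
        omega
      · apply h𝓕.hereditary _ hG.2
        intro i hi
        rcases Finset.mem_union.mp hi with hi | hi
        · rcases Finset.mem_union.mp hi with hi | hi
          · exact Finset.mem_union_left _ hi
          · exact Finset.mem_union_right _ (Finset.mem_filter.mp hi).1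
        · exact Finset.mem_union_right _ (Finset.mem_filter.mp hi).1
    set R1 := G.filter (fun i => j < i ∧ i < N (n + 1)) with hR1
    have hR1le : ∑ i ∈ R1, W i ≤ 1 := by
      have h1 : ∑ i ∈ R1, W i = ∑ i ∈ R1, w n i := by
        refine Finset.sum_congr rfl (fun i hi => ?_)
        have h2 := (Finset.mem_filter.mp hi).2
        show w (idx i) i = w n i
        rw [hidx3 n i (by omega) h2.2]
      rw [h1]; exact hwle n R1
    have hR2le : ∑ i ∈ R2, W i ≤ 1 := by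
      set M := R2.sup idx + 1 with hM
      have h1 : ∀ i ∈ R2, W i ≤ ∑ m ∈ Finset.Ico (n + 1) M, w m i := by
        intro i hi
        have h2 : n + 1 ≤ idx i := by
          by_contra hlt
          have h3 : N (idx i + 1) ≤ N (n + 1) := hNmono (show idx i + 1 ≤ n + 1 by omega)
          have h4 := hidx1 i
          have h5 := (Finset.mem_filter.mp hi).2
          omega
        have h3 : idx i ≤ R2.sup idx := Finset.le_sup hi
        exact Finset.single_le_sum (f := fun m => w m i) (fun m _ => hw0 m i)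
          (Finset.mem_Ico.mpr ⟨h2, by omega⟩)
      calc ∑ i ∈ R2, W i ≤ ∑ i ∈ R2, ∑ m ∈ Finset.Ico (n + 1) M, w m i :=
            Finset.sum_le_sum h1
        _ = ∑ m ∈ Finset.Ico (n + 1) M, ∑ i ∈ R2, w m i := Finset.sum_comm
        _ ≤ ∑ m ∈ Finset.Ico (n + 1) M, ((1 : ℝ) / 2) ^ (m + 1) := by
            refine Finset.sum_le_sum (fun m hm => ?_)
            rw [Finset.mem_Ico] at hm
            have h2 := hsmall m A' (hA'sub.trans (Finset.range_subset_range.mpr (hNmono hm.1)))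
              hrel R2 happ
            calc ∑ i ∈ R2, w m i ≤ ∑ i ∈ R2, Z' m i / s m := Finset.sum_le_sum (fun i _ => hwZ m i)
              _ = (∑ i ∈ R2, Z' m i) / s m := by rw [Finset.sum_div]
              _ ≤ 4 / 2 ^ (m + 3) := by
                  have h3 : (0 : ℝ) < 2 ^ (m + 3) := by positivity
                  exact div_le_div₀ (by norm_num) h2 h3 (hmass m)
              _ = ((1 : ℝ) / 2) ^ (m + 1) := by
                  rw [one_div, inv_pow, pow_add 2 m 3, pow_add 2 m 1]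
                  field_simp
                  norm_num
        _ ≤ ∑ m ∈ Finset.range M, ((1 : ℝ) / 2) ^ (m + 1) := by
            apply Finset.sum_le_sum_of_subset_of_nonneg
            · intro m hm
              exact Finset.mem_range.mpr (Finset.mem_Ico.mp hm).2
            · intro _ _ _; positivity
        _ ≤ 1 := geom_le M
    have hsplit : G ⊆ G.filter (fun i => i ≤ j) ∪ (R1 ∪ R2) := by
      intro i hi
      simp only [Finset.mem_union, hR1, hR2, Finset.mem_filter, hi, true_and]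
      omega
    calc ∑ i ∈ G, W i ≤ ∑ i ∈ G.filter (fun i => i ≤ j) ∪ (R1 ∪ R2), W i :=
          Finset.sum_le_sum_of_subset_of_nonneg hsplit (fun i _ _ => hW0 i)
      _ ≤ ∑ i ∈ G.filter (fun i => i ≤ j), W i + ∑ i ∈ R1 ∪ R2, W i := by
          rw [← Finset.sum_union_inter]
          have : 0 ≤ ∑ i ∈ G.filter (fun i => i ≤ j) ∩ (R1 ∪ R2), W i :=
            Finset.sum_nonneg (fun i _ => hW0 i)
          linarith
      _ ≤ ∑ i ∈ G.filter (fun i => i ≤ j), W i + (∑ i ∈ R1, W i + ∑ i ∈ R2, W i) := by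
          have h1 : ∑ i ∈ R1 ∪ R2, W i ≤ ∑ i ∈ R1, W i + ∑ i ∈ R2, W i := by
            rw [← Finset.sum_union_inter]
            have : 0 ≤ ∑ i ∈ R1 ∩ R2, W i := Finset.sum_nonneg (fun i _ => hW0 i)
            linarith
          linarith
      _ ≤ 4 := by linarith

/-- `(¬ c₀)` implies `(Σ)` for every hereditary cover of `ℕ`. -/
theorem result (𝓕 : Set (Finset ℕ)) (h𝓕 : IsHereditaryCover 𝓕) (h : NotC0 𝓕) : SigmaProp 𝓕 := by
  classical
  intro x hx
  by_contra hcon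
  push Not at hcon
  let X : ℕ → ℝ := fun i => ∑ n ∈ Finset.range (i + 1), |x n i|
  have hX0 : ∀ i, 0 ≤ X i := fun i => Finset.sum_nonneg (fun _ _ => abs_nonneg _)
  -- the relation is well-founded
  have hwf : WellFounded (Rel 𝓕 X) := by
    rw [wellFounded_iff_isEmpty_descending_chain]
    constructor
    rintro ⟨A, hA⟩
    choose G hG1 hG2 hG3 using hA
    have hsub : ∀ n, A n ⊆ A (n + 1) := fun n => by rw [hG2]; exact Finset.subset_union_left
    have hmono : Monotone A := monotone_nat_of_le_succ hsub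
    have hmem : ∀ n, A (n + 1) ∈ 𝓕 := fun n => by rw [hG2]; exact (hG1 n).2
    let B : Set ℕ := ⋃ n, (A n : Set ℕ)
    have hB : B ∈ cl 𝓕 := by
      intro F hF
      have h1 : ∀ S : Finset ℕ, (S : Set ℕ) ⊆ B → ∃ n, S ⊆ A n := by
        intro S
        induction S using Finset.induction_on with
        | empty => intro _; exact ⟨0, Finset.empty_subset _⟩
        | insert a S _ ih =>
          intro hS
          obtain ⟨n, hn⟩ := ih (fun i hi => hS (Finset.mem_coe.mpr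
            (Finset.mem_insert_of_mem (Finset.mem_coe.mp hi))))
          obtain ⟨m, hm⟩ := Set.mem_iUnion.mp (hS (Finset.mem_coe.mpr (Finset.mem_insert_self a S)))
          refine ⟨max n m, Finset.insert_subset (hmono (le_max_right n m) hm)
            (hn.trans (hmono (le_max_left n m)))⟩
      obtain ⟨n, hn⟩ := h1 F hF
      exact h𝓕.hereditary _ (hmem n) _ (hn.trans (hsub n))
    have hsum := hcon B hB
    have hmass : ∀ n : ℕ, (n : ℝ) ≤ ∑ i ∈ A n, X i := by
      intro n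
      induction n with
      | zero => push_cast; exact Finset.sum_nonneg (fun i _ => hX0 i)
      | succ n ih =>
        have hd : Disjoint (A n) (G n) := by
          rw [Finset.disjoint_left]
          intro i h1 h2
          exact lt_irrefl _ ((hG1 n).1 i h1 i h2)
        rw [hG2 n, Finset.sum_union hd]
        push_cast
        linarith [hG3 n]
    obtain ⟨n, hn⟩ := exists_nat_gt (∑' n, l1 (P B (x n)))
    have h1 : ∑ i ∈ A n, X i ≤ ∑' n, l1 (P B (x n)) := by
      set K := (A n).sup id + 1 with hK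
      calc ∑ i ∈ A n, X i ≤ ∑ i ∈ A n, ∑ m ∈ Finset.range K, |x m i| := by
            refine Finset.sum_le_sum (fun i hi => ?_)
            apply Finset.sum_le_sum_of_subset_of_nonneg
            · apply Finset.range_subset_range.mpr
              have : i ≤ (A n).sup id := Finset.le_sup (f := id) hi
              omega
            · intro _ _ _; exact abs_nonneg _
        _ = ∑ m ∈ Finset.range K, ∑ i ∈ A n, |x m i| := Finset.sum_comm
        _ ≤ ∑ m ∈ Finset.range K, l1 (P B (x m)) := by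
            refine Finset.sum_le_sum (fun m _ => ?_)
            have h2 : ∑ i ∈ A n, |x m i| = ∑ i ∈ A n, |P B (x m) i| := by
              refine Finset.sum_congr rfl (fun i hi => ?_)
              have h3 : P B (x m) i = x m i :=
                Finsupp.filter_apply_pos _ _ (Set.mem_iUnion.mpr ⟨n, hi⟩)
              rw [h3]
            rw [h2]; exact sum_le_l1 _ _
        _ ≤ ∑' n, l1 (P B (x n)) :=
            hsum.sum_le_tsum _ (fun m _ => Finset.sum_nonneg (fun _ _ => abs_nonneg _))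
    linarith [hmass n]
  have hclaim : ∀ A, Claim 𝓕 X A := fun A => hwf.induction A (fun A ih => claim_step h𝓕 h ih)
  have hXheavy : Heavy 𝓕 X := by
    intro N
    refine ⟨(x N).support, hx.supp N, hx.le h𝓕 N, ?_⟩
    rw [← hx.l1_eq h𝓕 N]
    refine Finset.sum_le_sum (fun i hi => ?_)
    exact Finset.single_le_sum (f := fun m => |x m i|) (fun m _ => abs_nonneg _)
      (Finset.mem_range.mpr (by have := hx.le h𝓕 N i hi; omega))
  obtain ⟨W, hW0, -, hW, hW4⟩ := hclaim ∅ X hX0 (fun _ => le_rfl) hXheavy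
  obtain ⟨F, hF, hF4⟩ := NotC0.heavy h𝓕 h hW0 hW 4
  have := hW4 F ⟨by simp, by rwa [Finset.empty_union]⟩
  linarith

end Pool.Agent.Results.MP_441f99_an.NotC0ImpliesSigma
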